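import Pool.Agent.N523.SCDefs

/-!
# Vertex-transitive self-complementary graphs and Kotzig's question on strong regularity
-/

set_option autoImplicit false

namespace Pool.Agent.Results.MP_a93e77_co.Circulant13

open Pool.Agent.N523.SC

/-- The connection set `{1, 2, 4, -1, -2, -4}`, as a Boolean function on `ZMod 13`. -/
def conn (d : Fin 13) : Bool :=
  match d with
  | 1 => true
  | 2 => true
  | 4 => true
  | 9 => true
  | 11 => true
  | 12 => true
  | _ => false

/-- The circulant graph of order 13 with connection set `{1, 2, 4, -1, -2, -4}`. -/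
def G : SimpleGraph (Fin 13) where
  Adj i j := conn (i - j) = true
  symm := ⟨by decide⟩
  loopless := ⟨by decide⟩

instance : DecidableRel G.Adj := fun i j => inferInstanceAs (Decidable (conn (i - j) = true))

/-- Multiplication by 8. -/
def P : Equiv.Perm (Fin 13) where
  toFun := fun x => 8 * x
  invFun := fun x => 5 * x
  left_inv := by unfold Function.LeftInverse; decide
  right_inv := by unfold Function.RightInverse Function.LeftInverse; decide

theorem isoP : IsoPerm G P := by
  unfold IsoPerm; decide

/-- Translations are automorphisms. -/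
theorem transl (c u v : Fin 13) : G.Adj (u + c) (v + c) ↔ G.Adj u v := by
  show conn (u + c - (v + c)) = true ↔ conn (u - v) = true
  rw [add_sub_add_right_eq_sub]

theorem isoPc (c : Fin 13) : IsoPerm G (P.trans (Equiv.addRight c)) := by
  intro u v huv
  have h := isoP u v huv
  simp only [Equiv.trans_apply, Equiv.coe_addRight]
  rw [transl]
  exact h

theorem selfCompl : SelfCompl G := by
  refine ⟨⟨P, ?_⟩⟩
  intro a b
  rw [SimpleGraph.compl_adj]
  by_cases h : a = b
  · subst h; simp
  · have h1 := isoP a b h
    have h2 : P a ≠ P b := fun h3 => h (P.injective h3)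
    tauto

theorem anyPair (u v : Fin 13) : ∃ Q : Equiv.Perm (Fin 13), IsoPerm G Q ∧ Q u = v := by
  refine ⟨P.trans (Equiv.addRight (v - P u)), isoPc _, ?_⟩
  simp

theorem fixAll : FixSet G = Set.univ := by
  ext v
  simp only [FixSet, Set.mem_ofPred_eq, Set.mem_univ, iff_true]
  exact anyPair v v

theorem neighAll : NeighSet G = G.edgeSet := by
  ext e
  simp only [NeighSet, Set.mem_ofPred_eq]
  constructor
  · exact fun h => h.1
  · intro h
    refine ⟨h, ?_⟩
    induction e using Sym2.ind with
    | _ u v =>
      obtain ⟨Q, hQ, huv⟩ := anyPair u v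
      exact ⟨Q, hQ, u, v, rfl, huv⟩

theorem deg (v : Fin 13) : (G.neighborSet v).ncard = 6 := by
  have h : G.neighborSet v = ((Finset.univ : Finset (Fin 13)).filter
      (fun w => G.Adj v w) : Finset (Fin 13)) := by
    ext s
    simp
  rw [h, Set.ncard_coe_finset]
  clear h
  revert v; decide

theorem common (u v : Fin 13) : (G.commonNeighbors u v).ncard =
    ((Finset.univ : Finset (Fin 13)).filter (fun w => G.Adj u w ∧ G.Adj v w)).card := by
  have h : G.commonNeighbors u v = ((Finset.univ : Finset (Fin 13)).filter
      (fun w => G.Adj u w ∧ G.Adj v w) : Finset (Fin 13)) := by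
    ext s
    simp [SimpleGraph.mem_commonNeighbors]
  rw [h, Set.ncard_coe_finset]

theorem notSR : ¬ EdgeRegular G := by
  rintro ⟨l, hl⟩
  have h1 := hl 0 1 (by decide)
  have h2 := hl 0 2 (by decide)
  rw [common] at h1 h2
  rw [← h2] at h1
  revert h1
  decide

/-- There is a self-complementary graph on 13 vertices, regular of degree 6, with
`F(G) = V(G)` and `N(G) = E(G)`, that is not strongly regular. -/
theorem result : ∃ G : SimpleGraph (Fin 13),
    SelfCompl G ∧ (∀ v, (G.neighborSet v).ncard = 6) ∧
    FixSet G = Set.univ ∧ NeighSet G = G.edgeSet ∧ ¬ StronglyRegular G :=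
  ⟨G, selfCompl, deg, fixAll, neighAll, fun h => notSR h.2.1⟩

end Pool.Agent.Results.MP_a93e77_co.Circulant13
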